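import Mathlib.Algebra.FreeAlgebra
import Mathlib.Data.Complex.Basic
import Mathlib.LinearAlgebra.Span.Basic

namespace Pool.Agent.Work.MP_540755_al

/-- The lower central series of the free associative algebra `A_m = ℂ⟨x_0, …, x_{m-1}⟩`:
`lcs m 1 = A_m` and `lcs m (k+1)` is the span of the commutators `a l - l a` with `a ∈ A_m`,
`l ∈ lcs m k` (the index `0` is not used; it is set to `A_m`). -/
def lcs (m : ℕ) : ℕ → Submodule ℂ (FreeAlgebra ℂ (Fin m))
  | 0 => ⊤
  | 1 => ⊤
  | k + 2 => Submodule.span ℂ {z | ∃ a l, l ∈ lcs m (k + 1) ∧ z = a * l - l * a}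

/-- The component of multidegree `p` of `A_m`: the span of the monomials in which each
generator `x_i` occurs exactly `p i` times. -/
def multiDeg (m : ℕ) (p : Fin m → ℕ) : Submodule ℂ (FreeAlgebra ℂ (Fin m)) :=
  Submodule.span ℂ
    {z | ∃ w : List (Fin m), (∀ i, w.count i = p i) ∧ z = (w.map (FreeAlgebra.ι ℂ)).prod}

end Pool.Agent.Work.MP_540755_al
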