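import Mathlib
import Pool.Agent.Work.MP_540755_al.Defs

/-! A triangular matrix model that detects non-membership in the lower central series. -/

namespace Pool.Agent.Work.MP_540755_al

open FreeAlgebra

variable {R : Type} [CommRing R] [Algebra ℂ R]

def QM (t : R) (N : Matrix (Fin 3) (Fin 3) R) : Prop :=
  ∃ n p z α β γ : R, N = !![n + t * α, p + t * γ, z; 0, n, p; 0, 0, n - t * α + t ^ 2 * β]

def PM (t : R) (m : ℕ) (M : Matrix (Fin 3) (Fin 3) R) : Prop :=
  ∃ s r e : R, M = !![0, t ^ (m + 1) * (s + t * r), t ^ (m + 1) * e; 0, 0, t ^ (m + 1) * s; 0, 0, 0]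

noncomputable def mrep (t : R) (m : ℕ) : FreeAlgebra ℂ (Fin m) →ₐ[ℂ] Matrix (Fin 3) (Fin 3) R :=
  FreeAlgebra.lift ℂ fun i => if i.val = 0 then !![t, 0, 0; 0, 0, 0; 0, 0, -t]
    else if i.val = 1 then !![0, 1, 0; 0, 0, 1; 0, 0, 0] else 0

theorem mrep_gen (t : R) (m : ℕ) (i : Fin m) : mrep t m (ι ℂ i) =
    if i.val = 0 then !![t, 0, 0; 0, 0, 0; 0, 0, -t]
    else if i.val = 1 then !![0, 1, 0; 0, 0, 1; 0, 0, 0] else 0 := by
  simp [mrep]

theorem QM_all (t : R) (m : ℕ) (a : FreeAlgebra ℂ (Fin m)) : QM t (mrep t m a) := by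
  induction a using FreeAlgebra.induction with
  | grade0 r =>
    refine ⟨algebraMap ℂ R r, 0, 0, 0, 0, 0, ?_⟩
    rw [AlgHom.commutes]
    refine Matrix.ext fun i j => ?_
    fin_cases i <;> fin_cases j <;> simp [Matrix.algebraMap_matrix_apply]
  | grade1 x =>
    rw [mrep_gen]
    split_ifs
    · exact ⟨0, 0, 0, 1, 0, 0, by simp⟩
    · exact ⟨0, 1, 0, 0, 0, 0, by simp⟩
    · refine ⟨0, 0, 0, 0, 0, 0, Matrix.ext fun i j => ?_⟩
      fin_cases i <;> fin_cases j <;> simp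
  | mul a b ha hb =>
    obtain ⟨n, p, z, α, β, γ, ha⟩ := ha
    obtain ⟨n', p', z', α', β', γ', hb⟩ := hb
    refine ⟨n * n', n * p' + p * (n' - t * α' + t ^ 2 * β'),
      (n + t * α) * z' + (p + t * γ) * p' + z * (n' - t * α' + t ^ 2 * β'),
      α * n' + n * α' + t * α * α',
      2 * α * α' + β * n' + n * β' - t * (α * β' + β * α') + t ^ 2 * β * β',
      n * γ' + α * p' + t * α * γ' + γ * n' + p * α' - t * p * β', ?_⟩
    rw [map_mul, ha, hb]
    refine Matrix.ext fun i j => ?_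
    fin_cases i <;> fin_cases j <;> simp [Matrix.mul_apply, Fin.sum_univ_three] <;> ring
  | add a b ha hb =>
    obtain ⟨n, p, z, α, β, γ, ha⟩ := ha
    obtain ⟨n', p', z', α', β', γ', hb⟩ := hb
    refine ⟨n + n', p + p', z + z', α + α', β + β', γ + γ', ?_⟩
    rw [map_add, ha, hb]
    refine Matrix.ext fun i j => ?_
    fin_cases i <;> fin_cases j <;> simp <;> ring

theorem PM_span (t : R) (m k : ℕ) (S : Set (FreeAlgebra ℂ (Fin m)))
    (h : ∀ z ∈ S, PM t k (mrep t m z)) : ∀ z ∈ Submodule.span ℂ S, PM t k (mrep t m z) := by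
  intro z hz
  induction hz using Submodule.span_induction with
  | mem x hx => exact h x hx
  | zero =>
    refine ⟨0, 0, 0, ?_⟩
    rw [map_zero]
    refine Matrix.ext fun i j => ?_
    fin_cases i <;> fin_cases j <;> simp
  | add x y _ _ hx hy =>
    obtain ⟨s, r, e, hx⟩ := hx
    obtain ⟨s', r', e', hy⟩ := hy
    refine ⟨s + s', r + r', e + e', ?_⟩
    rw [map_add, hx, hy]
    refine Matrix.ext fun i j => ?_
    fin_cases i <;> fin_cases j <;> simp <;> ring
  | smul c x _ hx =>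
    obtain ⟨s, r, e, hx⟩ := hx
    refine ⟨algebraMap ℂ R c * s, algebraMap ℂ R c * r, algebraMap ℂ R c * e, ?_⟩
    rw [map_smul, hx]
    refine Matrix.ext fun i j => ?_
    fin_cases i <;> fin_cases j <;> simp [Algebra.smul_def] <;> ring

theorem PM_lcs (t : R) (m k : ℕ) : ∀ l ∈ lcs m (k + 2), PM t k (mrep t m l) := by
  induction k with
  | zero =>
    refine PM_span t m 0 _ ?_
    rintro _ ⟨a, b, -, rfl⟩
    obtain ⟨n, p, z, α, β, γ, ha⟩ := QM_all t m a
    obtain ⟨n', p', z', α', β', γ', hb⟩ := QM_all t m b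
    refine ⟨p' * (α - t * β) - p * (α' - t * β'), α * γ' - α' * γ + p' * β - p * β',
      z' * (2 * α - t * β) - z * (2 * α' - t * β') + γ * p' - γ' * p, ?_⟩
    rw [map_sub, map_mul, map_mul, ha, hb]
    refine Matrix.ext fun i j => ?_
    fin_cases i <;> fin_cases j <;> simp [Matrix.mul_apply, Fin.sum_univ_three] <;> ring
  | succ k ih =>
    refine PM_span t m (k + 1) _ ?_
    rintro _ ⟨a, l, hl, rfl⟩
    obtain ⟨n, p, z, α, β, γ, ha⟩ := QM_all t m a
    obtain ⟨s, r, e, hb⟩ := ih l hl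
    refine ⟨(α - t * β) * s, α * r + β * s, (2 * α - t * β) * e + γ * s - r * p, ?_⟩
    rw [map_sub, map_mul, map_mul, ha, hb]
    refine Matrix.ext fun i j => ?_
    fin_cases i <;> fin_cases j <;> simp [Matrix.mul_apply, Fin.sum_univ_three] <;> ring

theorem corner_lcs (t : R) (m k : ℕ) (l : FreeAlgebra ℂ (Fin m)) (h : l ∈ lcs m (k + 2)) :
    ∃ e, mrep t m l 0 2 = t ^ (k + 1) * e := by
  obtain ⟨s, r, e, h⟩ := PM_lcs t m k l h
  exact ⟨e, by rw [h]; simp⟩

end Pool.Agent.Work.MP_540755_al
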