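import Pool.Agent.Work.MP_540755_al.Cert6
import Pool.Agent.Work.MP_540755_al.Mat

/-! Kernel elements for every `k ≥ 4` and `n ≥ 2`. -/

namespace Pool.Agent.Work.MP_540755_al

open FreeAlgebra

theorem ad2 (k : ℕ) (q r l : AA) (h : l ∈ lcs 4 (k + 1)) :
    (q * r - r * q) * l - l * (q * r - r * q) ∈ lcs 4 (k + 3) := by
  have e : (q * r - r * q) * l - l * (q * r - r * q) =
      (q * (r * l - l * r) - (r * l - l * r) * q) - (r * (q * l - l * q) - (q * l - l * q) * r) := by
    noncomm_ring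
  rw [e]
  exact sub_mem (br_mem _ _ _ (br_mem _ _ _ h)) (br_mem _ _ _ (br_mem _ _ _ h))

theorem ad3 (k : ℕ) (p q r s l : AA) (hs : s = q * r - r * q) (h : l ∈ lcs 4 (k + 1)) :
    (p * s - s * p) * l - l * (p * s - s * p) ∈ lcs 4 (k + 4) := by
  have e : (p * s - s * p) * l - l * (p * s - s * p) =
      (p * (s * l - l * s) - (s * l - l * s) * p) - (s * (p * l - l * p) - (p * l - l * p) * s) := by
    noncomm_ring
  rw [e, hs]
  exact sub_mem (br_mem _ _ _ (ad2 k q r l h)) (ad2 (k + 1) q r _ (br_mem _ _ _ h))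

noncomputable def aK : ℕ → AA
  | 0 => ev aP
  | j + 1 => ι ℂ 0 * aK j - aK j * ι ℂ 0

theorem aK_mem : ∀ j, aK j ∈ lcs 4 (j + 4)
  | 0 => aP_mem
  | j + 1 => br_mem (j + 3) _ _ (aK_mem j)

theorem aK_br : ∀ j, cc * ι ℂ 0 * aK j - aK j * (cc * ι ℂ 0) ∈ lcs 4 (j + 6)
  | 0 => base6
  | j + 1 => by
    have h1 := br_mem (j + 5) (ι ℂ 0) _ (aK_br j)
    have h2 := ad3 (j + 3) (ι ℂ 0) (ι ℂ 0) cc _ _ rfl (aK_mem j)
    have h3 := ad3 (j + 3) (ι ℂ 0 * ι ℂ 0) (ι ℂ 2) (ι ℂ 3) cc _ rfl (aK_mem j)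
    have h4 := add_mem h1 (Submodule.smul_mem _ (1 / 2 : ℂ) (sub_mem h2 h3))
    convert h4 using 1
    rw [aK]
    generalize aK j = b
    generalize cc = w
    generalize (ι ℂ 0 : AA) = x
    simp only [mul_sub, sub_mul, mul_assoc]
    module

theorem aK_der : ∀ j, der (aK j) ∈ lcs 4 (j + 5)
  | 0 => der_aP_mem
  | j + 1 => by
    have h := add_mem (aK_br j) (br_mem (j + 4) (ι ℂ 0) _ (aK_der j))
    convert h using 1
    rw [aK, map_sub, der_mul, der_mul, der_gen]
    abel

theorem sub3 {R : Type} [CommRing R] (a b c d e f g h i a' b' c' d' e' f' g' h' i' : R) :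
    !![a, b, c; d, e, f; g, h, i] - !![a', b', c'; d', e', f'; g', h', i'] =
      !![a - a', b - b', c - c'; d - d', e - e', f - f'; g - g', h - h', i - i'] := by
  refine Matrix.ext fun i j => ?_
  fin_cases i <;> fin_cases j <;> simp

theorem aK_corner {R : Type} [CommRing R] [Algebra ℂ R] (t : R) (j : ℕ) :
    mrep t 4 (aK j) 0 2 = 4 * 2 ^ j * t ^ (j + 3) := by
  have hx : mrep t 4 (ι ℂ 0) = !![t, 0, 0; 0, 0, 0; 0, 0, -t] := by rw [mrep_gen]; simp
  have hy : mrep t 4 (ι ℂ 1) = !![0, 1, 0; 0, 0, 1; 0, 0, 0] := by rw [mrep_gen]; simp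
  induction j with
  | zero =>
    simp only [aK, aP, ev_append, ev_scP, nest4, ev_brP, ev_cons, ev_nil, mon, List.map_cons,
      List.map_nil, List.prod_cons, List.prod_nil, Int.cast_one, one_smul, add_zero, mul_one,
      Int.cast_smul_eq_zsmul, map_add, map_sub, map_mul, map_zsmul, hx, hy, Matrix.mul_fin_three,
      sub3, mul_zero, zero_mul, zero_add, one_mul, sub_zero, sub_self, Matrix.add_apply,
      Matrix.smul_apply]
    simp
    ring
  | succ j ih =>
    rw [aK, map_sub, map_mul, map_mul, hx, Matrix.sub_apply, Matrix.mul_apply, Matrix.mul_apply,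
      Fin.sum_univ_three, Fin.sum_univ_three, ih]
    simp
    ring

section
variable (n : ℕ)

def emb : Fin 4 → Fin (n + 4) := ![⟨0, by omega⟩, ⟨1, by omega⟩, ⟨n + 2, by omega⟩, ⟨n + 3, by omega⟩]

noncomputable def FF : AA →ₐ[ℂ] FreeAlgebra ℂ (Fin (n + 4)) :=
  FreeAlgebra.lift ℂ fun i => ι ℂ (emb n i)

theorem FF_gen (i : Fin 4) : FF n (ι ℂ i) = ι ℂ (emb n i) := by simp [FF]

theorem FF_lcs : ∀ k, ∀ l ∈ lcs 4 (k + 1), FF n l ∈ lcs (n + 4) (k + 1)
  | 0 => fun _ _ => Submodule.mem_top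
  | k + 1 => fun l hl => by
    induction hl using Submodule.span_induction with
    | mem x hx =>
      obtain ⟨a, l, hl, rfl⟩ := hx
      exact Submodule.subset_span ⟨FF n a, FF n l, FF_lcs k l hl, by simp⟩
    | zero => simp
    | add x y _ _ hx hy => rw [map_add]; exact add_mem hx hy
    | smul c x _ hx => rw [map_smul]; exact Submodule.smul_mem _ _ hx

theorem mrep_FF {R : Type} [CommRing R] [Algebra ℂ R] (t : R) (a : AA) :
    mrep t (n + 4) (FF n a) = mrep t 4 a := by
  have : (mrep t (n + 4)).comp (FF n) = mrep t 4 := by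
    ext1
    ext1 i
    simp only [Function.comp_apply, AlgHom.comp_apply, FF_gen, mrep_gen]
    fin_cases i <;> simp [emb]
  exact DFunLike.congr_fun this a

theorem not_mem (j : ℕ) : FF n (aK j) ∉ lcs (n + 4) (j + 5) := fun h => by
  obtain ⟨e, he⟩ := corner_lcs (Polynomial.X : Polynomial ℂ) (n + 4) (j + 3) _ h
  rw [mrep_FF, aK_corner] at he
  have h2 : (4 * 2 ^ j : Polynomial ℂ) = Polynomial.X * e := by
    apply mul_left_cancel₀ (pow_ne_zero (j + 3) (Polynomial.X_ne_zero (R := ℂ)))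
    linear_combination he
  have h3 := congrArg (Polynomial.eval 0) h2
  simp at h3

noncomputable def rhoG {m : ℕ} (c : FreeAlgebra ℂ (Fin m)) :
    FreeAlgebra ℂ (Fin m) →ₐ[ℂ] Matrix (Fin 2) (Fin 2) (FreeAlgebra ℂ (Fin m)) :=
  FreeAlgebra.lift ℂ fun i => !![ι ℂ i, c * ι ℂ i; 0, ι ℂ i]

theorem rhoG_diag {m : ℕ} (c a : FreeAlgebra ℂ (Fin m)) :
    rhoG c a 0 0 = a ∧ rhoG c a 1 1 = a ∧ rhoG c a 1 0 = 0 := by
  induction a using FreeAlgebra.induction with
  | grade0 r =>
    rw [AlgHom.commutes]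
    simp [Matrix.algebraMap_matrix_apply]
  | grade1 x => simp [rhoG]
  | mul a b ha hb =>
    obtain ⟨h1, h2, h3⟩ := ha
    obtain ⟨h4, h5, h6⟩ := hb
    simp [map_mul, Matrix.mul_apply, Fin.sum_univ_two, h1, h2, h3, h4, h5, h6]
  | add a b ha hb =>
    obtain ⟨h1, h2, h3⟩ := ha
    obtain ⟨h4, h5, h6⟩ := hb
    simp [map_add, h1, h2, h3, h4, h5, h6]

noncomputable def derG {m : ℕ} (c : FreeAlgebra ℂ (Fin m)) :
    FreeAlgebra ℂ (Fin m) →ₗ[ℂ] FreeAlgebra ℂ (Fin m) where
  toFun a := rhoG c a 0 1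
  map_add' a b := by simp [map_add]
  map_smul' c a := by simp [map_smul]

theorem derG_mul {m : ℕ} (c a b : FreeAlgebra ℂ (Fin m)) :
    derG c (a * b) = derG c a * b + a * derG c b := by
  obtain ⟨h1, h2, h3⟩ := rhoG_diag c a
  obtain ⟨h4, h5, h6⟩ := rhoG_diag c b
  show rhoG c (a * b) 0 1 = rhoG c a 0 1 * b + a * rhoG c b 0 1
  rw [map_mul, Matrix.mul_apply, Fin.sum_univ_two, h1, h5, add_comm]

theorem derG_gen {m : ℕ} (c : FreeAlgebra ℂ (Fin m)) (i : Fin m) :
    derG c (ι ℂ i) = c * ι ℂ i := by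
  show rhoG c (ι ℂ i) 0 1 = _
  simp [rhoG]

theorem derG_FF (a : AA) : derG (FF n cc) (FF n a) = FF n (der a) := by
  induction a using FreeAlgebra.induction with
  | grade0 r =>
    have h : derG (FF n cc) 1 = 0 := by simpa using derG_mul (FF n cc) 1 1
    simp [Algebra.algebraMap_eq_smul_one, h, der_one]
  | grade1 x => rw [der_gen, map_mul, FF_gen, derG_gen]
  | mul a b ha hb => rw [map_mul, derG_mul, der_mul, ha, hb, map_add, map_mul, map_mul]
  | add a b ha hb => rw [map_add, map_add, map_add, map_add, ha, hb]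

def dg (j : ℕ) (i : Fin (n + 4)) : ℕ := if i.val = 0 then j + 3 else if i.val = 1 then 2 else 0

theorem count_emb (i : Fin (n + 4)) (w : Wd) : (w.map (emb n)).count i =
    (if i.val = 0 then w.count 0 else 0) + (if i.val = 1 then w.count 1 else 0) +
    (if i.val = n + 2 then w.count 2 else 0) + (if i.val = n + 3 then w.count 3 else 0) := by
  induction w with
  | nil => simp
  | cons a w ih =>
    rw [List.map_cons, List.count_cons, ih]
    have hv : ((emb n a == i) = true) = ((emb n a).val = i.val) := by rw [beq_iff_eq, Fin.ext_iff]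
    have e0 : (emb n 0).val = 0 := rfl
    have e1 : (emb n 1).val = 1 := rfl
    have e2 : (emb n 2).val = n + 2 := rfl
    have e3 : (emb n 3).val = n + 3 := rfl
    simp only [hv, List.count_cons, beq_iff_eq]
    obtain rfl | rfl | rfl | rfl : a = 0 ∨ a = 1 ∨ a = 2 ∨ a = 3 := by fin_cases a <;> simp
    all_goals
      simp only [e0, e1, e2, e3, Fin.reduceEq, ↓reduceIte]
      split_ifs <;> omega

theorem deg_step (j : ℕ) (z : FreeAlgebra ℂ (Fin (n + 4))) (h : z ∈ multiDeg (n + 4) (dg n j)) :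
    ι ℂ (emb n 0) * z - z * ι ℂ (emb n 0) ∈ multiDeg (n + 4) (dg n (j + 1)) := by
  induction h using Submodule.span_induction with
  | mem x hx =>
    obtain ⟨w, hw, rfl⟩ := hx
    have key : ∀ i, w.count i + (if (emb n 0 == i) = true then 1 else 0) = dg n (j + 1) i := by
      intro i
      rw [hw i]
      simp only [dg, emb, Matrix.cons_val_zero, beq_iff_eq, Fin.ext_iff]
      split_ifs <;> omega
    refine sub_mem (Submodule.subset_span ⟨emb n 0 :: w, fun i => ?_, by simp⟩)
      (Submodule.subset_span ⟨w ++ [emb n 0], fun i => ?_, by simp⟩)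
    · rw [List.count_cons, key]
    · rw [List.count_append, List.count_cons, List.count_nil, zero_add, key]
  | zero => simp
  | add x y _ _ hx hy => convert add_mem hx hy using 1; noncomm_ring
  | smul c x _ hx =>
    convert Submodule.smul_mem _ c hx using 1
    simp [smul_sub]

theorem aK_deg : ∀ j, FF n (aK j) ∈ multiDeg (n + 4) (dg n j)
  | 0 => by
    have key : ∀ z ∈ multiDeg 4 ![3, 2, 0, 0], FF n z ∈ multiDeg (n + 4) (dg n 0) := by
      intro z hz
      induction hz using Submodule.span_induction with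
      | mem x hx =>
        obtain ⟨w, hw, rfl⟩ := hx
        refine Submodule.subset_span ⟨w.map (emb n), fun i => ?_, ?_⟩
        · rw [count_emb, hw 0, hw 1, hw 2, hw 3]
          simp only [dg]
          split_ifs <;> simp_all
        · rw [map_list_prod, List.map_map, List.map_map]
          congr 2
          funext i
          simp [FF_gen]
      | zero => simp
      | add x y _ _ hx hy => rw [map_add]; exact add_mem hx hy
      | smul c x _ hx => rw [map_smul]; exact Submodule.smul_mem _ _ hx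
    exact key _ aP_deg
  | j + 1 => by
    rw [aK, map_sub, map_mul, map_mul, FF_gen]
    exact deg_step n j _ (aK_deg j)

end

end Pool.Agent.Work.MP_540755_al
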