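import Pool.Agent.Work.MP_540755_al.Defs
import Mathlib.Data.Matrix.Mul
import Mathlib.LinearAlgebra.Matrix.Notation
import Mathlib.Data.Matrix.Basic
import Mathlib.Algebra.Algebra.Basic
import Mathlib.Tactic.NoncommRing
import Mathlib.Tactic.Abel
import Mathlib.Tactic.Ring
import Mathlib.Tactic.FinCases
import Mathlib.Tactic.NormNum

namespace Pool.Agent.Work.MP_540755_al

open FreeAlgebra

abbrev AA := FreeAlgebra ℂ (Fin 4)
abbrev Wd := List (Fin 4)
abbrev Pl := List (ℤ × Wd)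

/-- monomial of a word -/
noncomputable def mon (w : Wd) : AA := (w.map (ι ℂ)).prod

@[simp] theorem mon_nil : mon [] = 1 := rfl
theorem mon_cons (i : Fin 4) (w : Wd) : mon (i :: w) = ι ℂ i * mon w := by
  simp [mon]
theorem mon_append (u v : Wd) : mon (u ++ v) = mon u * mon v := by
  simp [mon]

noncomputable def ev (p : Pl) : AA := (p.map fun t => (t.1 : ℂ) • mon t.2).sum

@[simp] theorem ev_nil : ev [] = 0 := rfl
theorem ev_cons (t : ℤ × Wd) (p : Pl) : ev (t :: p) = (t.1 : ℂ) • mon t.2 + ev p := by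
  simp [ev]
theorem ev_append (p q : Pl) : ev (p ++ q) = ev p + ev q := by
  simp [ev]

/-- bracket of a word with a polynomial -/
def brP (u : Wd) : Pl → Pl
  | [] => []
  | t :: p => (t.1, u ++ t.2) :: (-t.1, t.2 ++ u) :: brP u p

theorem ev_brP (u : Wd) (p : Pl) : ev (brP u p) = mon u * ev p - ev p * mon u := by
  induction p with
  | nil => simp [brP]
  | cons t p ih =>
    simp only [brP, ev_cons, ih, mon_append, mul_add, add_mul, Int.cast_neg, neg_smul,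
      mul_smul_comm, smul_mul_assoc]
    abel

def scP (c : ℤ) : Pl → Pl
  | [] => []
  | t :: p => (c * t.1, t.2) :: scP c p

theorem ev_scP (c : ℤ) (p : Pl) : ev (scP c p) = (c : ℂ) • ev p := by
  induction p with
  | nil => simp [scP]
  | cons t p ih => simp only [scP, ev_cons, ih, smul_add, Int.cast_mul, mul_smul]

/-- a tree of coefficients indexed by words -/
inductive Tr where
  | nil : Tr
  | node : ℤ → Tr → Tr → Tr → Tr → Tr

noncomputable def Tr.ev : Tr → AA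
  | .nil => 0
  | .node c a b d e => (c : ℂ) • 1 + ι ℂ 0 * a.ev + ι ℂ 1 * b.ev + ι ℂ 2 * d.ev + ι ℂ 3 * e.ev

def Tr.ins (c : ℤ) : Wd → Tr → Tr
  | [], .nil => .node c .nil .nil .nil .nil
  | [], .node c' a b d e => .node (c + c') a b d e
  | i :: w, .nil =>
      if i = 0 then .node 0 (Tr.ins c w .nil) .nil .nil .nil
      else if i = 1 then .node 0 .nil (Tr.ins c w .nil) .nil .nil
      else if i = 2 then .node 0 .nil .nil (Tr.ins c w .nil) .nil
      else .node 0 .nil .nil .nil (Tr.ins c w .nil)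
  | i :: w, .node c' a b d e =>
      if i = 0 then .node c' (Tr.ins c w a) b d e
      else if i = 1 then .node c' a (Tr.ins c w b) d e
      else if i = 2 then .node c' a b (Tr.ins c w d) e
      else .node c' a b d (Tr.ins c w e)

theorem Tr.ev_ins (c : ℤ) (w : Wd) (t : Tr) : (Tr.ins c w t).ev = (c : ℂ) • mon w + t.ev := by
  induction w generalizing t with
  | nil =>
    cases t with
    | nil => simp [Tr.ins, Tr.ev]
    | node c' a b d e => simp only [Tr.ins, Tr.ev, mon_nil, Int.cast_add, add_smul]; abel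
  | cons i w ih =>
    cases t with
    | nil =>
      fin_cases i <;> simp [Tr.ins, Tr.ev, ih, mon_cons]
    | node c' a b d e =>
      fin_cases i <;> simp [Tr.ins, Tr.ev, ih, mon_cons, mul_add] <;> abel

def Tr.isZero : Tr → Bool
  | .nil => true
  | .node c a b d e => (c == 0) && a.isZero && b.isZero && d.isZero && e.isZero

theorem Tr.ev_of_isZero (t : Tr) (h : t.isZero = true) : t.ev = 0 := by
  induction t with
  | nil => rfl
  | node c a b d e iha ihb ihd ihe =>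
    simp only [Tr.isZero, Bool.and_eq_true, beq_iff_eq] at h
    obtain ⟨⟨⟨⟨hc, ha⟩, hb⟩, hd⟩, he⟩ := h
    simp [Tr.ev, hc, iha ha, ihb hb, ihd hd, ihe he]

def toTr : Pl → Tr → Tr
  | [], t => t
  | s :: p, t => toTr p (Tr.ins s.1 s.2 t)

theorem ev_toTr (p : Pl) (t : Tr) : (toTr p t).ev = ev p + t.ev := by
  induction p generalizing t with
  | nil => simp [toTr]
  | cons s p ih => simp only [toTr, ih, Tr.ev_ins, ev_cons]; abel

theorem ev_eq_zero (p : Pl) (h : (toTr p .nil).isZero = true) : ev p = 0 := by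
  have := Tr.ev_of_isZero _ h
  simpa [ev_toTr, Tr.ev] using this

/-! The derivation. -/

noncomputable def cc : AA := ι ℂ 2 * ι ℂ 3 - ι ℂ 3 * ι ℂ 2

noncomputable def rho : AA →ₐ[ℂ] Matrix (Fin 2) (Fin 2) AA :=
  FreeAlgebra.lift ℂ fun i => !![ι ℂ i, cc * ι ℂ i; 0, ι ℂ i]

theorem rho_diag (a : AA) : rho a 0 0 = a ∧ rho a 1 1 = a ∧ rho a 1 0 = 0 := by
  induction a using FreeAlgebra.induction with
  | grade0 r =>
    rw [AlgHom.commutes]
    simp [Matrix.algebraMap_matrix_apply]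
  | grade1 x => simp [rho]
  | mul a b ha hb =>
    obtain ⟨h1, h2, h3⟩ := ha
    obtain ⟨h4, h5, h6⟩ := hb
    simp [map_mul, Matrix.mul_apply, Fin.sum_univ_two, h1, h2, h3, h4, h5, h6]
  | add a b ha hb =>
    obtain ⟨h1, h2, h3⟩ := ha
    obtain ⟨h4, h5, h6⟩ := hb
    simp [map_add, h1, h2, h3, h4, h5, h6]

noncomputable def der : AA →ₗ[ℂ] AA where
  toFun a := rho a 0 1
  map_add' a b := by simp [map_add]
  map_smul' c a := by simp [map_smul]

theorem der_mul (a b : AA) : der (a * b) = der a * b + a * der b := by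
  obtain ⟨h1, h2, h3⟩ := rho_diag a
  obtain ⟨h4, h5, h6⟩ := rho_diag b
  show rho (a * b) 0 1 = rho a 0 1 * b + a * rho b 0 1
  rw [map_mul, Matrix.mul_apply, Fin.sum_univ_two, h1, h5, add_comm]

theorem der_gen (i : Fin 4) : der (ι ℂ i) = cc * ι ℂ i := by
  show rho (ι ℂ i) 0 1 = _
  simp [rho]

theorem der_one : der 1 = 0 := by
  have := der_mul 1 1
  simpa using this

def derW (c : ℤ) (u : Wd) : Wd → Pl
  | [] => []
  | i :: w => (c, u ++ 2 :: 3 :: i :: w) :: (-c, u ++ 3 :: 2 :: i :: w) :: derW c (u ++ [i]) w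

theorem ev_derW (c : ℤ) (u w : Wd) : ev (derW c u w) = (c : ℂ) • (mon u * der (mon w)) := by
  induction w generalizing u with
  | nil => simp [derW, der_one]
  | cons i w ih =>
    simp only [derW, ev_cons, ih, mon_append, mon_cons, der_mul, der_gen, cc, mon_nil, mul_one,
      Int.cast_neg, neg_smul, mul_add, smul_add, sub_mul, mul_sub, smul_sub, mul_assoc]
    abel

def derP : Pl → Pl
  | [] => []
  | t :: p => derW t.1 [] t.2 ++ derP p

theorem ev_derP (p : Pl) : ev (derP p) = der (ev p) := by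
  induction p with
  | nil => simp [derP]
  | cons t p ih => simp [derP, ev_append, ih, ev_derW, ev_cons]

/-! Membership in the lower central series. -/

theorem br_mem (k : ℕ) (a l : AA) (h : l ∈ lcs 4 (k + 1)) : a * l - l * a ∈ lcs 4 (k + 2) :=
  Submodule.subset_span ⟨a, l, h, rfl⟩

theorem brP_mem (k : ℕ) (u : Wd) (p : Pl) (h : ev p ∈ lcs 4 (k + 1)) :
    ev (brP u p) ∈ lcs 4 (k + 2) := by
  rw [ev_brP]; exact br_mem k _ _ h

def nest4 (a b c d : Wd) : Pl := brP a (brP b (brP c [(1, d)]))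
def nest5 (a b c d e : Wd) : Pl := brP a (nest4 b c d e)

theorem nest4_mem (a b c d : Wd) : ev (nest4 a b c d) ∈ lcs 4 4 :=
  brP_mem 2 _ _ (brP_mem 1 _ _ (brP_mem 0 _ _ Submodule.mem_top))

theorem nest5_mem (a b c d e : Wd) : ev (nest5 a b c d e) ∈ lcs 4 5 :=
  brP_mem 3 _ _ (nest4_mem _ _ _ _)

def sumCert : List (ℤ × Wd × Wd × Wd × Wd × Wd) → Pl
  | [] => []
  | t :: l => scP t.1 (nest5 t.2.1 t.2.2.1 t.2.2.2.1 t.2.2.2.2.1 t.2.2.2.2.2) ++ sumCert l

theorem sumCert_mem (l : List (ℤ × Wd × Wd × Wd × Wd × Wd)) : ev (sumCert l) ∈ lcs 4 5 := by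
  induction l with
  | nil => simp [sumCert]
  | cons t l ih =>
    rw [sumCert, ev_append, ev_scP]
    exact add_mem (Submodule.smul_mem _ _ (nest5_mem _ _ _ _ _)) ih

/-- the element `[x²,[y,[x,y]]] - 2[x,[xy,[x,y]]] + [x,[x,[x,y²]]]` -/
def aP : Pl :=
  nest4 [0, 0] [1] [0] [1] ++ scP (-2) (nest4 [0] [0, 1] [0] [1]) ++ nest4 [0] [0] [0] [1, 1]

theorem aP_mem : ev aP ∈ lcs 4 4 := by
  rw [aP, ev_append, ev_append, ev_scP]
  exact add_mem (add_mem (nest4_mem _ _ _ _) (Submodule.smul_mem _ _ (nest4_mem _ _ _ _)))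
    (nest4_mem _ _ _ _)

def cert : List (ℤ × Wd × Wd × Wd × Wd × Wd) :=
 [(126,[0],[0,0],[1],[1],[2,3]),
  (14,[0],[0],[0],[1],[1,2,3]),
  (18,[0],[0],[0,1,1],[2],[3]),
  (44,[0],[0],[0],[1,1],[2,3]),
  (-30,[0],[0],[1,0,1],[2],[3]),
  (34,[0],[0],[0],[1],[1,3,2]),
  (-136,[0],[0],[0],[1,2,1],[3]),
  (12,[0],[0],[0],[1,1],[3,2]),
  (-216,[0],[0],[0,1],[1],[2,3]),
  (54,[0],[0],[0,1],[1],[3,2]),
  (-90,[0],[0,0],[1],[1,2],[3]),
  (-30,[0,0],[1],[0,1],[2],[3]),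
  (-12,[0,0],[1,0],[1],[2],[3]),
  (-6,[0],[0],[0],[1],[2,1,3]),
  (90,[0],[0],[0],[1,2],[1,3]),
  (48,[0],[0],[1],[0],[1,3,2]),
  (-120,[0],[0],[0,2],[1,1],[3]),
  (12,[0,0,1],[0],[1],[2],[3]),
  (-39,[0,0],[1],[1],[0,3],[2]),
  (84,[0,0],[1],[1,3],[0],[2]),
  (66,[0],[0],[1],[0,3,1],[2]),
  (-156,[0],[0,0,2],[1],[1],[3]),
  (-180,[0],[0,2],[0],[1],[1,3]),
  (42,[0],[0],[1,0,2],[1],[3]),
  (-33,[0,0],[1],[1],[0],[2,3]),
  (12,[0,0],[1],[1,0],[2],[3]),
  (60,[0],[1],[0,0,1],[2],[3]),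
  (-48,[0],[0,1,1],[0],[2],[3]),
  (36,[0],[0,1],[1,0],[2],[3]),
  (-24,[0,0,0],[1],[1],[2],[3]),
  (48,[0,0],[1],[1,2],[0],[3]),
  (144,[0],[0],[0,1],[1,3],[2]),
  (-276,[0],[0,1],[0],[1,3],[2]),
  (-192,[0],[0,1],[0],[1,2],[3]),
  (-72,[0],[0,1,0],[1],[2],[3]),
  (76,[0,0,0],[1],[2],[1],[3]),
  (-132,[0],[0],[1,0],[1],[2,3]),
  (132,[0],[0],[1,0],[1,3],[2]),
  (42,[0],[0],[1],[0,2,3],[1]),
  (48,[0,0],[0,1],[1],[2],[3]),
  (-24,[0,0],[1,3],[1],[0],[2]),
  (-12,[0,1],[0],[0],[1],[2,3]),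
  (-48,[0],[0,0,1],[1],[2],[3]),
  (-66,[0],[0],[1],[0],[1,2,3]),
  (12,[0],[0,2,3],[1],[0],[1]),
  (-114,[0],[0,0],[1],[1,3],[2]),
  (60,[0],[0,0],[1,2],[1],[3]),
  (-12,[0],[0],[1],[0,3],[1,2]),
  (27,[0,0],[1],[1],[0,2],[3]),
  (-27,[0,0],[1,1],[2],[0],[3]),
  (42,[0],[0],[1,1,2],[0],[3]),
  (-44,[0,0,0],[2],[1],[1],[3]),
  (54,[0,0],[2],[1],[0,1],[3]),
  (-42,[0,0],[1,2],[1],[0],[3]),
  (66,[0],[0],[0,2,1],[1],[3]),
  (-38,[0],[0],[0],[1,1,3],[2]),
  (-66,[0,0],[1],[0,2],[1],[3]),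
  (-6,[0],[0,0],[1,3],[1],[2]),
  (-18,[0],[0],[1,1,3],[0],[2]),
  (-16,[0],[0],[0],[1,1,2],[3]),
  (-96,[0],[1],[0,0],[1],[2,3]),
  (108,[0],[1],[0,0,2],[1],[3]),
  (-108,[0],[0,2,1],[0],[1],[3]),
  (-54,[0],[0],[1,2],[0,1],[3]),
  (-18,[0],[0,0],[1],[1],[3,2]),
  (24,[0],[0,1],[1],[0],[2,3]),
  (-24,[0],[1],[0],[0],[1,2,3]),
  (24,[0],[0,1],[2],[0,1],[3]),
  (-60,[0],[1],[0],[0,2,3],[1]),
  (192,[0],[0,0,1],[2],[1],[3]),
  (150,[0],[0],[1,0],[1,2],[3]),
  (-198,[0,0],[0,1],[2],[1],[3]),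
  (-54,[0,0],[1],[2],[0,1],[3]),
  (-12,[0],[0],[1],[0,2],[1,3]),
  (12,[0],[0],[0,3],[1,1],[2]),
  (-36,[0,0],[1],[0],[1],[2,3]),
  (-12,[0,0],[0,3],[1],[1],[2]),
  (6,[0],[0],[1],[0,1],[2,3]),
  (90,[0],[0],[0,1],[1,2],[3]),
  (42,[0],[0],[1,3],[0,1],[2]),
  (-42,[0],[0],[0,3,1],[1],[2]),
  (24,[0],[1],[0],[0,1,2],[3]),
  (36,[0,1],[0],[0],[1,3],[2]),
  (12,[1],[0],[0,0],[1,3],[2]),
  (24,[1],[0],[0],[0,2,1],[3]),
  (-6,[0,0],[1,2],[0],[1],[3]),
  (132,[0],[0,2],[0],[1,1],[3]),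
  (78,[0,0],[0,2],[1],[1],[3]),
  (48,[0],[1],[0],[0,3],[1,2]),
  (6,[0],[0],[1],[0,1,2],[3]),
  (6,[0],[0],[0,1,2],[1],[3]),
  (48,[0],[0],[0,1,3],[1],[2]),
  (-24,[0],[1],[0],[0,1,3],[2]),
  (36,[1],[0],[0],[0],[1,2,3]),
  (-12,[1],[0],[0],[0],[1,3,2]),
  (-36,[1],[0],[0,0],[1],[2,3]),
  (288,[0],[0,1],[0],[1],[2,3]),
  (-48,[0],[0,1],[1,2],[0],[3]),
  (12,[0],[0,1,2],[0],[1],[3]),
  (36,[0,1],[0],[0,1],[2],[3]),
  (24,[0,1],[0],[1],[0,3],[2]),
  (-24,[0,1],[0],[0,3],[1],[2]),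
  (-24,[0,1],[1],[0],[0,3],[2]),
  (-12,[0,1],[1],[0,0],[2],[3]),
  (-24,[0,1],[1],[0],[0,2],[3]),
  (24,[0],[1],[0],[0,3,2],[1]),
  (-12,[0],[1,0,0],[1],[2],[3]),
  (-12,[1],[0,0],[0,1],[2],[3]),
  (-12,[1],[0],[0],[0,3],[1,2]),
  (24,[1],[0,0],[0,3],[1],[2]),
  (-24,[0,1],[0],[1],[0,2],[3]),
  (-12,[0,1],[0,0],[1],[2],[3]),
  (12,[1],[0],[0],[0,2,3],[1]),
  (-12,[0],[1],[0,2],[0],[1,3]),
  (132,[0],[0],[0,2],[1],[1,3]),
  (6,[0,0],[1,3],[0],[1],[2]),
  (108,[0,0],[1],[0],[1,2],[3]),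
  (42,[0,0],[1],[0,3],[1],[2]),
  (-12,[0],[0],[1,2],[0],[1,3]),
  (12,[1],[0,1],[0,3],[0],[2]),
  (24,[0],[0,0,3],[1],[1],[2]),
  (84,[0],[1],[0,0],[1,3],[2]),
  (12,[0,1],[0],[1],[0],[2,3]),
  (-24,[0,1],[0,2],[0],[1],[3]),
  (24,[0],[0,3],[0],[1],[1,2]),
  (-12,[0],[1,2],[0,0],[1],[3]),
  (-12,[0],[0,1,3],[0],[1],[2]),
  (12,[0],[1,3],[0,0],[1],[2]),
  (24,[1],[0,0],[0,2],[1],[3]),
  (-12,[1],[0],[0],[0,1,2],[3]),
  (-12,[1],[0,1],[0,2],[0],[3]),
  (-12,[1],[0],[0,3],[0],[1,2]),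
  (12,[1],[0],[0,2],[0],[1,3]),
  (24,[0,1],[1,3],[0],[0],[2]),
  (-12,[1],[0,1],[0],[0],[2,3]),
  (-24,[0],[0,3],[1,0],[1],[2]),
  (24,[0],[0,2],[1,0],[1],[3]),
  (24,[0,1],[0,1],[2],[0],[3]),
  (12,[0,1,1],[2],[0],[0],[3]),
  (12,[0],[1,2],[0],[0],[1,3]),
  (54,[0],[0,0],[1,1],[2],[3]),
  (-12,[1],[0],[0],[0,1],[2,3]),
  (-12,[1],[0],[0,2,3],[0],[1]),
  (12,[1],[0],[0,0],[1,2],[3]),
  (-36,[0,1],[0],[1,3],[0],[2]),
  (12,[0],[1],[0,3],[0],[1,2]),
  (-84,[0],[0],[1],[0,1,3],[2]),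
  (24,[0,1],[2],[0,0],[1],[3]),
  (-24,[0,1],[1],[0,3],[0],[2]),
  (36,[0,1],[0],[0],[1,2],[3]),
  (-24,[0,1],[0],[1,0],[2],[3]),
  (12,[0,1],[0],[1,2],[0],[3]),
  (24,[1],[0,0,0],[1],[2],[3]),
  (12,[1],[0],[0],[0,1,3],[2]),
  (-36,[1],[0],[0],[0,2],[1,3]),
  (-12,[0,0,1],[1],[0],[2],[3]),
  (24,[1],[0,1],[0],[0,2],[3]),
  (-48,[0,0,1],[0],[2],[1],[3]),
  (24,[0],[1],[0],[0,2],[1,3]),
  (-24,[0,0,1],[2],[0],[1],[3]),
  (-24,[0,1,1],[0],[2],[0],[3]),
  (24,[0,1],[1],[0],[0],[2,3]),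
  (-24,[0],[1],[0],[0,2,1],[3]),
  (24,[1],[0],[0,3],[0,2],[1]),
  (-24,[0],[0,3],[1],[0,2],[1]),
  (24,[0],[0,1],[1],[0,2],[3])]

theorem cert_ok : (toTr (scP (-6) (derP aP) ++ sumCert cert) .nil).isZero = true := by
  decide +kernel

theorem der_aP_mem : der (ev aP) ∈ lcs 4 5 := by
  have h := ev_eq_zero _ cert_ok
  rw [ev_append, ev_scP, ev_derP] at h
  have h2 : der (ev aP) = (1 / 6 : ℂ) • ev (sumCert cert) := by
    have h3 : ev (sumCert cert) = (6 : ℂ) • der (ev aP) := by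
      have := eq_neg_of_add_eq_zero_right h
      rw [this, ← neg_smul]; norm_num
    rw [h3, smul_smul]; norm_num
  rw [h2]
  exact Submodule.smul_mem _ _ (sumCert_mem _)

theorem ev_mem_multiDeg (q : Fin 4 → ℕ) (p : Pl) (h : ∀ t ∈ p, ∀ i, t.2.count i = q i) :
    ev p ∈ multiDeg 4 q := by
  induction p with
  | nil => simp
  | cons t p ih =>
    rw [ev_cons]
    refine add_mem (Submodule.smul_mem _ _ (Submodule.subset_span ⟨t.2, h t (by simp), rfl⟩)) ?_
    exact ih fun s hs => h s (by simp [hs])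

theorem aP_deg : ev aP ∈ multiDeg 4 ![3, 2, 0, 0] :=
  ev_mem_multiDeg _ _ (by decide +kernel)

/-! A functional killing `lcs 4 5`. -/

def sh (i : Fin 4) : Module.End ℂ (Wd → ℂ) where
  toFun g u := g (u ++ [i])
  map_add' _ _ := rfl
  map_smul' _ _ := rfl

noncomputable def rep : AA →ₐ[ℂ] Module.End ℂ (Wd → ℂ) := FreeAlgebra.lift ℂ sh

theorem rep_mon (w : Wd) (g : Wd → ℂ) (u : Wd) : rep (mon w) g u = g (u ++ w) := by
  induction w generalizing u with
  | nil => simp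
  | cons i w ih =>
    rw [mon_cons, map_mul, Module.End.mul_apply]
    have : rep (ι ℂ i) = sh i := by simp [rep]
    rw [this]
    show rep (mon w) g (u ++ [i]) = _
    rw [ih]; simp

def ff (w : Wd) : ℤ := if w = [0, 0, 1, 0, 1] then 1 else if w = [1, 0, 1, 0, 0] then -1 else 0

noncomputable def phi : AA →ₗ[ℂ] ℂ where
  toFun a := rep a (fun w => (ff w : ℂ)) []
  map_add' a b := by simp [map_add]
  map_smul' c a := by simp [map_smul]

theorem phi_mon (w : Wd) : phi (mon w) = ff w := by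
  show rep (mon w) _ [] = _
  rw [rep_mon]; simp

def fP : Pl → ℤ
  | [] => 0
  | t :: p => t.1 * ff t.2 + fP p

theorem phi_ev (p : Pl) : phi (ev p) = fP p := by
  induction p with
  | nil => simp [fP]
  | cons t p ih => simp [fP, ev_cons, ih, phi_mon]

theorem ff_len (w : Wd) (h : w.length ≠ 5) : ff w = 0 := by
  unfold ff
  split_ifs with h1 h2
  · subst h1; simp at h
  · subst h2; simp at h
  · rfl

theorem fP_single : ∀ a b c d e : Fin 4, fP (nest5 [a] [b] [c] [d] [e]) = 0 := by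
  have key : ∀ w : Wd, (∃ x ∈ w, 2 ≤ x.val) → ff w = 0 := by
    rintro w ⟨x, hx, h2⟩
    unfold ff
    split_ifs with h1 h3
    · subst h1; revert x; decide
    · subst h3; revert x; decide
    · rfl
  intro a b c d e
  by_cases h : a.val < 2 ∧ b.val < 2 ∧ c.val < 2 ∧ d.val < 2 ∧ e.val < 2
  · have k2 : ∀ a b c d e : Fin 2, fP (nest5 [a.castAdd 2] [b.castAdd 2] [c.castAdd 2]
        [d.castAdd 2] [e.castAdd 2]) = 0 := by
      decide +kernel
    exact k2 ⟨a, h.1⟩ ⟨b, h.2.1⟩ ⟨c, h.2.2.1⟩ ⟨d, h.2.2.2.1⟩ ⟨e, h.2.2.2.2⟩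
  · obtain ⟨x, hx, h2⟩ : ∃ x : Fin 4, (x = a ∨ x = b ∨ x = c ∨ x = d ∨ x = e) ∧ 2 ≤ x.val := by
      by_contra hc
      push Not at hc
      exact h ⟨hc a (by simp), hc b (by simp), hc c (by simp), hc d (by simp), hc e (by simp)⟩
    have all : ∀ p : Pl, (∀ t ∈ p, x ∈ t.2) → fP p = 0 := by
      intro p hp
      induction p with
      | nil => rfl
      | cons t p ih =>
        rw [fP, key t.2 ⟨x, hp t List.mem_cons_self, h2⟩,
          ih fun s hs => hp s (List.mem_cons_of_mem _ hs)]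
        simp
    have br : ∀ (u : Wd) (p : Pl), (x ∈ u ∨ ∀ t ∈ p, x ∈ t.2) → ∀ t ∈ brP u p, x ∈ t.2 := by
      intro u p hp
      induction p with
      | nil => intro t ht; cases ht
      | cons s p ih =>
        have h1 : x ∈ u ∨ x ∈ s.2 := hp.imp_right fun h => h s List.mem_cons_self
        intro t ht
        rw [brP] at ht
        rcases List.mem_cons.1 ht with rfl | ht
        · exact List.mem_append.2 h1
        rcases List.mem_cons.1 ht with rfl | ht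
        · exact List.mem_append.2 h1.symm
        exact ih (hp.imp_right fun h s hs => h s (List.mem_cons_of_mem _ hs)) t ht
    refine all _ (br _ _ ?_)
    rcases hx with rfl | hx
    · exact Or.inl List.mem_cons_self
    refine Or.inr (br _ _ ?_)
    rcases hx with rfl | hx
    · exact Or.inl List.mem_cons_self
    refine Or.inr (br _ _ ?_)
    rcases hx with rfl | hx
    · exact Or.inl List.mem_cons_self
    refine Or.inr (br _ _ ?_)
    rcases hx with rfl | rfl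
    · exact Or.inl List.mem_cons_self
    refine Or.inr fun t ht => ?_
    rw [List.mem_singleton.1 ht]
    exact List.mem_cons_self

theorem fP_nest5 (a b c d e : Wd) : fP (nest5 a b c d e) = 0 := by
  by_cases hl : a.length + b.length + c.length + d.length + e.length = 5
  · rcases a with _ | ⟨a, a'⟩
    · simp [nest5, nest4, brP, fP]
    rcases b with _ | ⟨b, b'⟩
    · simp [nest5, nest4, brP, fP]
    rcases c with _ | ⟨c, c'⟩
    · simp [nest5, nest4, brP, fP]; ring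
    rcases d with _ | ⟨d, d'⟩
    · simp [nest5, nest4, brP, fP]; ring
    rcases e with _ | ⟨e, e'⟩
    · simp [nest5, nest4, brP, fP]; ring
    simp only [List.length_cons] at hl
    have ha : a' = [] := List.length_eq_zero_iff.mp (by omega)
    have hb : b' = [] := List.length_eq_zero_iff.mp (by omega)
    have hc : c' = [] := List.length_eq_zero_iff.mp (by omega)
    have hd : d' = [] := List.length_eq_zero_iff.mp (by omega)
    have he : e' = [] := List.length_eq_zero_iff.mp (by omega)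
    subst ha hb hc hd he
    exact fP_single a b c d e
  · simp only [nest5, nest4, brP, fP]
    repeat rw [ff_len _ (by simp only [List.length_append]; omega)]
    simp

theorem span_mon (ψ : AA →ₗ[ℂ] ℂ) (h : ∀ w, ψ (mon w) = 0) (a : AA) : ψ a = 0 := by
  have key : ∀ a : AA, a ∈ Submodule.span ℂ (Set.range mon) := by
    intro a
    induction a using FreeAlgebra.induction with
    | grade0 r =>
      rw [Algebra.algebraMap_eq_smul_one]
      exact Submodule.smul_mem _ _ (Submodule.subset_span ⟨[], rfl⟩)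
    | grade1 x => exact Submodule.subset_span ⟨[x], by simp [mon]⟩
    | add a b ha hb => exact add_mem ha hb
    | mul a b ha hb =>
      induction ha using Submodule.span_induction with
      | zero => simp
      | add x y _ _ hx hy => rw [add_mul]; exact add_mem hx hy
      | smul c x _ hx => rw [smul_mul_assoc]; exact Submodule.smul_mem _ _ hx
      | mem x hx =>
        obtain ⟨u, rfl⟩ := hx
        induction hb using Submodule.span_induction with
        | zero => simp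
        | add x y _ _ hx hy => rw [mul_add]; exact add_mem hx hy
        | smul c x _ hx => rw [mul_smul_comm]; exact Submodule.smul_mem _ _ hx
        | mem y hy =>
          obtain ⟨v, rfl⟩ := hy
          exact Submodule.subset_span ⟨u ++ v, mon_append u v⟩
  have hle : Submodule.span ℂ (Set.range mon) ≤ LinearMap.ker ψ := by
    rw [Submodule.span_le]
    rintro _ ⟨w, rfl⟩
    exact h w
  exact hle (key a)

noncomputable def adL (u : AA) : AA →ₗ[ℂ] AA where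
  toFun l := u * l - l * u
  map_add' a b := by noncomm_ring
  map_smul' c a := by simp [smul_sub]

noncomputable def adR (l : AA) : AA →ₗ[ℂ] AA where
  toFun u := u * l - l * u
  map_add' a b := by noncomm_ring
  map_smul' c a := by simp [smul_sub]

theorem step (k : ℕ) (ψ : AA →ₗ[ℂ] ℂ)
    (h : ∀ w, ∀ l ∈ lcs 4 (k + 1), (ψ ∘ₗ adL (mon w)) l = 0) : ∀ l ∈ lcs 4 (k + 2), ψ l = 0 := by
  have hle : lcs 4 (k + 2) ≤ LinearMap.ker ψ := by
    rw [lcs, Submodule.span_le]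
    rintro _ ⟨a, l, hl, rfl⟩
    exact span_mon (ψ ∘ₗ adR l) (fun w => h w l hl) a
  exact fun l hl => hle hl

theorem phi_lcs : ∀ l ∈ lcs 4 5, phi l = 0 := by
  refine step 3 _ fun a => step 2 _ fun b => step 1 _ fun c => step 0 _ fun d l _ => ?_
  refine span_mon _ (fun e => ?_) l
  have h := phi_ev (nest5 a b c d e)
  rw [fP_nest5] at h
  simp only [nest5, nest4, ev_brP, ev_cons, ev_nil, Int.cast_one, one_smul, add_zero,
    Int.cast_zero] at h
  exact h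

theorem aP_not_mem : ev aP ∉ lcs 4 5 := by
  intro h
  have h1 := phi_lcs _ h
  rw [phi_ev] at h1
  have h2 : fP aP = 4 := by decide +kernel
  rw [h2] at h1
  norm_num at h1

end Pool.Agent.Work.MP_540755_al
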