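import Mathlib
import Pool.Agent.Work.MP_540755_al.Proof

/-! The bracket of `[x_2,x_3] x_0` with the witness lies in `L_6`; iterated brackets with `x_0`. -/

namespace Pool.Agent.Work.MP_540755_al

open FreeAlgebra

def nest6 (a b c d e f : Wd) : Pl := brP a (nest5 b c d e f)

theorem nest6_mem (a b c d e f : Wd) : ev (nest6 a b c d e f) ∈ lcs 4 6 :=
  brP_mem 4 _ _ (nest5_mem _ _ _ _ _)

def Tr.add : Tr → Tr → Tr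
  | .nil, t => t
  | .node c a b d e, .nil => .node c a b d e
  | .node c a b d e, .node c' a' b' d' e' =>
      .node (c + c') (a.add a') (b.add b') (d.add d') (e.add e')

theorem Tr.ev_add (s t : Tr) : (s.add t).ev = s.ev + t.ev := by
  induction s generalizing t with
  | nil => simp [Tr.add, Tr.ev]
  | node c a b d e ia ib id ie =>
    cases t with
    | nil => simp [Tr.add, Tr.ev]
    | node c' a' b' d' e' =>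
      simp only [Tr.add, Tr.ev, ia, ib, id, ie, Int.cast_add, add_smul, mul_add]
      abel

def sumCert6 : List (ℤ × Wd × Wd × Wd × Wd × Wd × Wd) → Tr
  | [] => .nil
  | t :: l => (toTr (scP t.1 (nest6 t.2.1 t.2.2.1 t.2.2.2.1 t.2.2.2.2.1 t.2.2.2.2.2.1
      t.2.2.2.2.2.2)) .nil).add (sumCert6 l)

theorem sumCert6_mem (l : List (ℤ × Wd × Wd × Wd × Wd × Wd × Wd)) :
    (sumCert6 l).ev ∈ lcs 4 6 := by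
  induction l with
  | nil => simp [sumCert6, Tr.ev]
  | cons t l ih =>
    rw [sumCert6, Tr.ev_add, ev_toTr, ev_scP]
    exact add_mem (add_mem (Submodule.smul_mem _ _ (nest6_mem _ _ _ _ _ _)) (by simp [Tr.ev])) ih

def cert6 : List (ℤ × Wd × Wd × Wd × Wd × Wd × Wd) :=
 [(1,[0],[0],[0],[0],[1,1],[2,3]),
  (-138,[0],[0],[0],[0],[1],[2,3,1]),
  (124,[0],[0],[0],[1],[0],[1,2,3]),
  (104,[0],[0],[0],[1],[0],[2,3,1]),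
  (-44,[0],[0],[0],[1],[0,2,3],[1]),
  (432,[0],[0],[0],[1],[1],[2,3,0]),
  (282,[0],[0],[1],[0],[0],[2,3,1]),
  (-202,[0],[0],[1],[0],[1],[2,3,0]),
  (258,[0],[0],[1],[0],[0,1],[2,3]),
  (208,[0],[0],[1],[0],[0,2,3],[1]),
  (48,[0],[0],[0],[0,1],[1],[2,3]),
  (-400,[0],[0],[1],[1],[0],[2,3,0]),
  (-84,[0],[1],[0],[0],[0,2,3],[1]),
  (68,[0],[1],[0],[0],[0],[1,2,3]),
  (76,[0],[1],[0],[0],[0],[2,3,1]),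
  (24,[0],[1],[0],[0],[0,1],[2,3]),
  (31,[0],[0],[0],[1,0,1],[2],[3]),
  (-9,[0],[0],[0],[1,1,0],[2],[3]),
  (344,[0],[0],[1],[1],[0,0],[2,3]),
  (151,[0],[0],[0],[0,1,1],[2],[3]),
  (-94,[0],[1],[0],[1],[0,0],[2,3]),
  (-16,[0],[1],[0],[1],[0],[0,2,3]),
  (-60,[0],[0],[1],[0,0,1],[2],[3]),
  (-258,[0],[0],[1],[0,0],[1],[2,3]),
  (-12,[0],[1],[1],[0],[0],[0,2,3]),
  (88,[0],[1],[1],[0],[0],[2,3,0]),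
  (566,[0],[0],[1],[0,1,0],[2],[3]),
  (-496,[0],[0],[1],[1,0,0],[2],[3]),
  (-339,[0],[0],[0,1,1],[0],[2],[3]),
  (-160,[0],[0],[2,3],[0],[0,1],[1]),
  (-162,[0],[1],[0],[1,0,0],[2],[3]),
  (104,[0],[1],[0],[2,3],[0,0],[1]),
  (-48,[0],[0],[0,1],[0],[1],[2,3]),
  (-239,[0],[0],[1,1,0],[0],[2],[3]),
  (24,[0],[1],[0],[0,1,0],[2],[3]),
  (166,[0],[1],[0],[0,0,1],[2],[3]),
  (-309,[0],[0],[1,0,1],[0],[2],[3]),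
  (-12,[1],[0],[0],[0,0,1],[2],[3]),
  (-24,[1],[0],[0],[0,1,0],[2],[3]),
  (-348,[0],[0],[0,0,1],[1],[2],[3]),
  (-12,[1],[0],[0],[1,0,0],[2],[3]),
  (128,[0],[1],[1],[0,0,0],[2],[3]),
  (-28,[0],[1],[0,1],[0],[0],[2,3]),
  (-8,[0],[1,1],[0],[0],[0],[2,3]),
  (99,[0],[0],[1,1],[0,0],[2],[3]),
  (-4,[1],[0],[1],[0,0,0],[2],[3]),
  (808,[0],[0],[0,1],[1,0],[2],[3]),
  (-280,[0],[1,0,1],[0],[0],[2],[3]),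
  (-24,[0],[1],[1,0,0],[0],[2],[3]),
  (24,[0],[1,0],[0],[0],[1],[2,3]),
  (-293,[0],[0],[1,0],[1,0],[2],[3]),
  (-384,[0],[1],[0,0,1],[0],[2],[3]),
  (-341,[0],[0],[0,1],[0,1],[2],[3]),
  (488,[0],[1],[0,1,0],[0],[2],[3]),
  (312,[0],[1,1,0],[0],[0],[2],[3]),
  (292,[0],[0,1,1],[0],[0],[2],[3]),
  (162,[0],[0,0,1],[0],[1],[2],[3]),
  (198,[0],[0],[0],[0],[1,3],[2,1]),
  (104,[0],[0],[0],[0],[1,2],[3,1]),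
  (-4,[1],[1],[0],[0,0,0],[2],[3]),
  (104,[0],[0],[0],[0],[2,1],[3,1]),
  (-244,[0],[0],[0],[0],[1],[3,1,2]),
  (89,[0],[0],[0],[0],[1,1],[3,2]),
  (12,[1],[0],[0,0,1],[0],[2],[3]),
  (-274,[0],[0],[0],[0],[1,1,3],[2]),
  (-210,[0],[1,0,0],[0],[1],[2],[3]),
  (-64,[0],[0],[0],[0],[1,2],[1,3]),
  (36,[0],[0,1,0],[0],[1],[2],[3]),
  (-80,[0],[0],[0],[1],[1],[2,0,3]),
  (-160,[0],[0],[0],[1],[1,0,3],[2]),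
  (632,[0],[0],[0],[1],[1,0],[3,2]),
  (-924,[0],[0],[0],[1],[0],[2,1,3]),
  (-124,[0],[0],[0],[1],[2,0],[3,1]),
  (500,[0],[0],[0],[1],[1,3,0],[2]),
  (-200,[0],[0],[0],[1],[2,0,1],[3]),
  (-160,[0],[0],[0],[1],[1,2],[3,0]),
  (-500,[0],[0],[0],[1],[2,1],[3,0]),
  (348,[0],[1,0,0],[1],[0],[2],[3]),
  (48,[0],[0],[0],[1],[0,3,1],[2]),
  (-732,[0],[0],[0],[1],[1,3],[2,0]),
  (760,[0],[0],[0],[1],[2],[3,1,0]),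
  (-408,[0],[1],[1,0],[0,0],[2],[3]),
  (92,[0],[0],[1],[0],[1,3],[2,0]),
  (116,[0],[0],[1],[0],[2,1],[3,0]),
  (204,[0],[0],[1],[0],[1,2],[3,0]),
  (-24,[0],[0],[1],[0],[0,3],[2,1]),
  (-148,[0],[0],[1],[0],[2,0],[3,1]),
  (-312,[0],[0],[1],[0],[0,3],[1,2]),
  (4,[1,1,0],[0],[0],[0],[2],[3]),
  (-264,[0],[0],[1],[0],[0,2],[3,1]),
  (24,[0],[0,1],[0],[0,1],[2],[3]),
  (4,[0,1,1],[0],[0],[0],[2],[3]),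
  (4,[1,0,1],[0],[0],[0],[2],[3]),
  (96,[0],[0],[1],[0],[0,3,1],[2]),
  (-148,[0],[0],[1],[0],[1],[3,0,2]),
  (272,[0],[0],[0],[2],[1],[1,3,0]),
  (152,[0],[0],[1],[1],[0],[0,3,2]),
  (168,[0],[0],[0],[3,1],[0,2],[1]),
  (-400,[0],[0],[0],[1,1,3],[0],[2]),
  (-56,[0],[0],[0],[1,0],[2,1],[3]),
  (120,[0],[0],[0],[1,0,3],[1],[2]),
  (-24,[0],[1],[0],[0],[1,0,3],[2]),
  (20,[0],[1],[0],[0],[2,1],[3,0]),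
  (12,[1],[0],[0,0],[1,0],[2],[3]),
  (808,[0],[0],[0],[3],[1],[1,0,2]),
  (-60,[0],[1],[0],[0],[0],[1,3,2]),
  (120,[0],[0],[0],[2,1],[0,3],[1]),
  (476,[0],[0],[0],[3],[0,2],[1,1]),
  (104,[0],[1],[0],[0],[2,0],[3,1]),
  (840,[0],[0],[0],[1,3,1],[0],[2]),
  (4,[0],[1],[0],[0],[0,1,3],[2]),
  (-88,[0],[1],[0],[0],[0,2],[3,1]),
  (116,[0],[0],[1],[1],[0,2],[3,0]),
  (8,[0],[0],[0],[1,2],[1,0],[3]),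
  (-72,[0],[0],[0],[3,1],[1,0],[2]),
  (-36,[0],[1],[0],[0],[1,3,0],[2]),
  (-24,[0],[1],[0],[0],[1],[2,0,3]),
  (-20,[0],[1],[0],[0],[0,2,1],[3]),
  (184,[0],[0],[0],[3],[1],[2,1,0]),
  (-56,[0],[0],[0],[3],[1],[1,2,0]),
  (252,[0],[0],[1],[1],[0,3],[2,0]),
  (48,[0],[1],[0],[0],[0,3,1],[2]),
  (-32,[0],[0],[1],[1],[0,2],[0,3]),
  (348,[0],[0],[1],[1],[2,0],[3,0]),
  (-464,[0],[0],[1],[1],[0,2,0],[3]),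
  (-48,[0],[1],[0],[0],[0,1,2],[3]),
  (12,[1],[0],[0,0],[0,1],[2],[3]),
  (12,[0,0,1],[0],[1],[0],[2],[3]),
  (-54,[0],[1],[0],[1],[0,0],[3,2]),
  (36,[0],[1],[0],[1],[0,2],[0,3]),
  (24,[0],[1],[0],[1],[0],[3,0,2]),
  (-12,[0],[1],[0],[1],[2,0],[3,0]),
  (88,[0],[1],[0],[1],[2,0,0],[3]),
  (-12,[0,1,0],[0],[1],[0],[2],[3]),
  (-72,[0],[0],[1],[3],[0,1,0],[2]),
  (-484,[0],[0],[1],[1,0],[0,3],[2]),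
  (60,[0],[0],[1],[3],[0],[1,2,0]),
  (56,[0],[0],[1],[1,0],[2],[3,0]),
  (288,[0],[0],[1],[1,3,0],[0],[2]),
  (12,[1,0,0],[1],[0],[0],[2],[3]),
  (204,[0],[0],[1],[0,3],[0],[1,2]),
  (288,[0],[0],[1],[0,2,0],[1],[3]),
  (48,[0],[0],[1],[2],[0,3,0],[1]),
  (-88,[0],[0],[1],[2],[1,0],[3,0]),
  (-288,[0],[0],[1],[2,0],[0,1],[3]),
  (-192,[0],[0],[1],[2],[0],[0,3,1]),
  (-52,[0],[1],[1],[0],[2,0,0],[3]),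
  (92,[0],[0],[1],[0,3],[0],[2,1]),
  (44,[0],[0],[1],[0,2],[1,0],[3]),
  (-76,[0],[1],[1],[0],[0],[3,0,2]),
  (100,[0],[1],[1],[0],[0,3,0],[2]),
  (116,[0],[0],[1],[3,0,0],[1],[2]),
  (12,[0],[1],[1],[0],[0,2],[3,0]),
  (-148,[0],[0],[2],[0],[0,1,3],[1]),
  (64,[0],[1],[0],[2],[1],[3,0,0]),
  (12,[0],[0],[3],[0],[0],[1,1,2]),
  (72,[0],[1],[0],[1,0],[0,3],[2]),
  (24,[0],[0],[0,3],[0],[1],[1,2]),
  (-8,[0],[1],[0],[0,0],[1,3],[2]),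
  (-20,[0],[1],[0],[0,3],[0,1],[2]),
  (80,[0],[1],[0],[0,0],[1,2],[3]),
  (-140,[0],[0],[2,0],[0],[1],[3,1]),
  (-132,[0],[1],[0],[0,2],[0,1],[3]),
  (60,[0],[1],[0],[3,1],[0,0],[2]),
  (-48,[0],[0],[3],[0],[1,0,1],[2]),
  (-12,[0],[1],[0],[1,3],[0,0],[2]),
  (48,[0],[0],[3,1],[0],[1,0],[2]),
  (96,[0],[1],[0],[0,3],[1],[2,0]),
  (-128,[0],[0],[2],[0],[1,0],[3,1]),
  (112,[0],[1],[0],[3,1],[0],[2,0]),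
  (-12,[0],[0],[1,1,3],[0],[0],[2]),
  (76,[0],[1],[0],[0,2],[0],[1,3]),
  (184,[0],[0],[0,1],[0],[1,2],[3]),
  (36,[0],[1],[0],[0,2],[0,3],[1]),
  (-356,[0],[0],[2],[0],[1],[1,3,0]),
  (-12,[0],[0],[0,3],[0],[1,1],[2]),
  (-24,[0],[0],[2,1],[0],[1,0],[3]),
  (-20,[0],[0],[3,1],[0],[1],[2,0]),
  (92,[0],[0],[3],[0],[0],[1,2,1]),
  (24,[0],[0],[1,2],[0],[0,3],[1]),
  (24,[0],[0],[3],[0],[1],[2,1,0]),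
  (-28,[0],[0],[2,0,1],[0],[1],[3]),
  (92,[0],[0],[1,1],[0],[2],[3,0]),
  (-324,[0],[0],[1,3],[0],[0],[1,2]),
  (-128,[0],[0],[2],[0],[0,3,1],[1]),
  (104,[0],[0],[0,2],[0],[1],[3,1]),
  (28,[0],[1],[0],[0,3],[1,0],[2]),
  (72,[0],[0],[3],[0],[1],[2,0,1]),
  (-172,[0],[0],[1,3],[0],[1,0],[2]),
  (-184,[0],[0],[2,1,0],[0],[1],[3]),
  (12,[0],[0],[3],[0],[1,1,0],[2]),
  (168,[0],[0],[1,3],[0],[0,1],[2]),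
  (12,[0],[0],[2],[0],[1,1],[3,0]),
  (196,[0],[0],[0,2],[0],[1],[1,3]),
  (136,[0],[0],[2,1],[0],[1],[3,0]),
  (28,[0],[0],[0,1,2],[0],[1],[3]),
  (24,[0],[0],[3,0],[1],[1],[2,0]),
  (24,[0],[0],[3],[1],[0,1],[2,0]),
  (92,[0],[1],[1],[2,0],[0,0],[3]),
  (-136,[0],[1],[1],[3,0],[0],[2,0]),
  (-48,[0],[1],[1],[2,0,0],[0],[3]),
  (56,[0],[1],[1,0,2],[0],[0],[3]),
  (12,[0],[3],[0],[0],[1,0],[2,1]),
  (12,[0],[1,3],[0],[0],[0,2],[1]),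
  (12,[0],[3,1],[0],[0],[1],[2,0]),
  (-20,[0],[1],[2],[0],[0,0,1],[3]),
  (24,[0],[1],[2],[0],[1,0],[3,0]),
  (8,[0],[1],[1,0],[0],[0,2],[3]),
  (-60,[0],[1],[2,0],[0],[1,0],[3]),
  (-4,[0],[3,1,0],[0],[0],[1],[2]),
  (16,[0],[0,3,1],[0],[0],[1],[2]),
  (12,[0],[2],[0],[0],[0,1],[1,3]),
  (-12,[0],[0,1,3],[0],[0],[1],[2]),
  (12,[0],[2,1,0],[0],[0],[1],[3]),
  (-12,[0],[1],[3],[0],[0,2],[1,0]),
  (16,[0],[3,1],[0],[0],[0],[1,2]),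
  (40,[0],[1],[2,0],[0],[0],[1,3]),
  (12,[0],[2,1],[0],[0],[1],[3,0]),
  (-28,[0],[1],[2],[0],[1,0,0],[3]),
  (-4,[0],[1,2,1],[0],[0],[0],[3]),
  (36,[0],[1],[2,0],[0],[1],[3,0]),
  (-40,[0],[1],[3,0],[0],[0,1],[2]),
  (12,[0],[1],[3],[0],[0],[1,2,0]),
  (-4,[0],[1,3,1],[0],[0],[0],[2]),
  (-68,[0],[1],[0,3,1],[0],[0],[2]),
  (-36,[0],[1,2],[0],[0],[0,3],[1]),
  (32,[0],[1],[0,3],[0],[0,1],[2]),
  (-36,[0],[1],[1,2],[0],[0,0],[3]),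
  (60,[0],[1],[3],[0],[0,1],[0,2]),
  (36,[0],[2],[0],[0],[0,3,1],[1]),
  (4,[0],[1],[1,2],[0],[0],[0,3]),
  (-4,[0],[1],[0,3],[0],[1,0],[2]),
  (-12,[0],[1],[3,0],[0],[1,0],[2]),
  (-24,[0],[3,0],[0],[0],[1],[1,2]),
  (-12,[0],[2],[0],[0],[0,3],[1,1]),
  (-12,[0],[0,1,2],[0],[0],[1],[3]),
  (24,[0],[3,0,1],[0],[0],[1],[2]),
  (-12,[0],[0,3],[0],[0],[1,1],[2]),
  (-32,[0],[1,2],[0],[0],[0],[1,3]),
  (24,[0],[2],[0],[0],[1],[3,1,0]),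
  (12,[0],[3,0],[0],[0],[1,1],[2]),
  (-12,[0],[3],[0],[0],[1],[2,0,1]),
  (-24,[0],[1,2],[0],[0],[1],[3,0]),
  (12,[0],[1,1],[0],[0],[0,3],[2]),
  (48,[0],[2,0,1],[0],[1],[0],[3]),
  (-12,[0],[2,0,0],[0],[1],[1],[3]),
  (-24,[0],[0,1],[0],[1],[0,3],[2]),
  (-12,[0],[2],[0],[1],[0,0,3],[1]),
  (-24,[0],[3,1],[0],[1],[0,0],[2]),
  (12,[0],[3,0,0],[0],[1],[1],[2]),
  (-12,[0],[3],[0],[1],[1],[2,0,0]),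
  (-48,[0],[0,3],[1],[0],[0,1],[2]),
  (48,[0],[0,2,0],[1],[0],[1],[3])]

theorem cert6_ok : (toTr (scP (-6) (brP [2, 3, 0] aP) ++ scP 6 (brP [3, 2, 0] aP))
    (sumCert6 cert6)).isZero = true := by
  decide +kernel

theorem base6 : cc * ι ℂ 0 * ev aP - ev aP * (cc * ι ℂ 0) ∈ lcs 4 6 := by
  have h := Tr.ev_of_isZero _ cert6_ok
  rw [ev_toTr, ev_append, ev_scP, ev_scP, ev_brP, ev_brP] at h
  have e : mon [2, 3, 0] - mon [3, 2, 0] = cc * ι ℂ 0 := by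
    simp [mon, cc, sub_mul, mul_assoc]
  have h2 : cc * ι ℂ 0 * ev aP - ev aP * (cc * ι ℂ 0) = (1 / 6 : ℂ) • (sumCert6 cert6).ev := by
    have h3 : (sumCert6 cert6).ev = (6 : ℂ) • (cc * ι ℂ 0 * ev aP - ev aP * (cc * ι ℂ 0)) := by
      rw [← sub_eq_zero, ← h, ← e, sub_mul, mul_sub]
      push_cast
      module
    rw [h3, smul_smul]; norm_num
  rw [h2]
  exact Submodule.smul_mem _ _ (sumCert6_mem _)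

end Pool.Agent.Work.MP_540755_al
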